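import Pool.Agent.Q266.RP.Stm3

/-! JOB DEGA of project RP (helper266), third part: the case `dim V = p`. -/

namespace Pool.Agent.Q113.RPB

open Pool.Agent.Q266.RP Module

/-- in a finite cyclic group the elements `e` with `e ^ p = 1` are powers of an element of
order `p` -/
theorem mem_of_cyclic {C : Type} [Group C] [Finite C] (hc : IsCyclic C) {p : ℕ} (hp : p.Prime)
    {e z : C} (he : e ^ p = 1) (hz : orderOf z = p) : e ∈ Subgroup.zpowers z := by
  classical
  have := Fintype.ofFinite C
  have h1 := IsCyclic.card_pow_eq_one_le (α := C) hp.pos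
  have hT : (Finset.univ.filter (fun a : C => a ∈ Subgroup.zpowers z)).card = p := by
    rw [← Fintype.card_subtype, ← hz, ← Nat.card_zpowers, Nat.card_eq_fintype_card]
  have hsub : (Finset.univ.filter (fun a : C => a ∈ Subgroup.zpowers z)) ⊆
      Finset.univ.filter (fun a : C => a ^ p = 1) := by
    intro a ha
    obtain ⟨k, hk⟩ := Subgroup.mem_zpowers_iff.1 (Finset.mem_filter.1 ha).2
    refine Finset.mem_filter.2 ⟨Finset.mem_univ _, ?_⟩
    have hzp : z ^ p = 1 := by rw [← hz]; exact pow_orderOf_eq_one z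
    rw [← hk, ← zpow_natCast, ← zpow_mul, mul_comm, zpow_mul, zpow_natCast, hzp, one_zpow]
  have heq := Finset.eq_of_subset_of_card_le hsub (by rw [hT]; exact h1)
  have h3 : e ∈ Finset.univ.filter (fun a : C => a ^ p = 1) :=
    Finset.mem_filter.2 ⟨Finset.mem_univ _, he⟩
  rw [← heq] at h3
  exact (Finset.mem_filter.1 h3).2

theorem dega (hOdd : S_ODDPAIR) (hStep : S_STEPB) (hSchur : S_SCHUR) (hDesc : S_DESC)
    (hOrd : S_ORD) : S_DEGA := by
  have key : ∀ n : ℕ, ∀ (p : ℕ) [Fact p.Prime], p ≠ 2 → ∀ (P V : Type) [Group P] [Finite P]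
      [AddCommGroup V] [Module ℂ V] [FiniteDimensional ℂ V] (ρ : Representation ℂ P V),
      Nat.card P = n → IsPGroup p P → Irr ρ → finrank ℂ V = p →
      ∀ x : P, LinearMap.trace ℂ V (ρ x) ≠ 0 →
      orderOf x * (finrank ℂ V) ^ 2 ∣ Nat.card P := by
    intro n
    induction n using Nat.strong_induction_on with
    | _ n ih =>
    intro p hp hp2 P V _ _ _ _ _ ρ hn hP hIrr hdim x hx
    by_cases hker : ∀ g, ρ g = 1 → g = 1
    · have h2 := hSchur.2.1 p P V ρ hIrr hker
      have hnc : ¬ ∀ a b : P, a * b = b * a := by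
        intro hc
        have hd := hSchur.2.2 P V ρ hIrr hc
        rw [hdim] at hd
        exact hp.out.one_lt.ne' hd
      obtain ⟨e, z, hez⟩ := hOdd p hp2 P hP h2 hnc
      have hep : e ^ p = 1 := hez.1
      have hec : e ∉ Subgroup.center P := hez.2.1
      have hzc : z ∈ Subgroup.center P := hez.2.2.1
      have hzo : orderOf z = p := hez.2.2.2.1
      have hzp : z ^ p = 1 := by rw [← hzo]; exact pow_orderOf_eq_one z
      obtain ⟨ω, hω⟩ := hSchur.1 P V ρ hIrr z hzc
      have hω1 : ω ≠ 1 := by
        intro h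
        have h1 : z = 1 := hker z (by
          ext v
          rw [hω, h, one_smul]
          rfl)
        rw [h1, orderOf_one] at hzo
        exact hp.out.one_lt.ne hzo
      obtain ⟨hxC, m, hu, hN, W, σ, -, -, -, -, hcd⟩ :=
        hStep p P V ρ hIrr e z hez ω hω hω1 x hx
      have hQP : IsPGroup p (Subgroup.centralizer ({e} : Set P) ⧸ Subgroup.zpowers
          (⟨e * z ^ m, hu⟩ : Subgroup.centralizer ({e} : Set P))) :=
        (hP.to_subgroup _).to_quotient _
      obtain ⟨a, ha⟩ := IsPGroup.iff_card.1 hQP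
      obtain ⟨b, hb⟩ := IsPGroup.iff_orderOf.1 hP x
      have hup : (⟨e * z ^ m, hu⟩ : Subgroup.centralizer ({e} : Set P)) ^ p = 1 := by
        apply Subtype.ext
        have hcm : Commute e (z ^ m) := by
          have h4 : Commute e z := Subgroup.mem_center_iff.1 hzc e
          exact h4.pow_right m
        change (e * z ^ m) ^ p = 1
        rw [hcm.mul_pow, hep, one_mul, ← pow_mul, mul_comm, pow_mul, hzp, one_pow]
      have hU : Nat.card (Subgroup.zpowers
          (⟨e * z ^ m, hu⟩ : Subgroup.centralizer ({e} : Set P))) ∣ p := by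
        rw [Nat.card_zpowers]
        exact orderOf_dvd_of_pow_eq_one hup
      have hC : Nat.card (Subgroup.centralizer ({e} : Set P)) ∣ p ^ (a + 1) := by
        rw [Subgroup.card_eq_card_quotient_mul_card_subgroup (Subgroup.zpowers
          (⟨e * z ^ m, hu⟩ : Subgroup.centralizer ({e} : Set P))), ha, pow_succ]
        exact Nat.mul_dvd_mul_left _ hU
      have hox : orderOf (⟨x, hxC⟩ : Subgroup.centralizer ({e} : Set P)) = p ^ b := by
        rw [Subgroup.orderOf_mk, hb]
      have hxd : p ^ b ∣ Nat.card (Subgroup.centralizer ({e} : Set P)) := by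
        rw [← hox]
        exact orderOf_dvd_natCard _
      rw [hcd, hdim, mul_comm, ha, hb]
      refine Nat.mul_dvd_mul_left _ ?_
      rcases Nat.lt_or_ge a b with hab | hab
      · exfalso
        have hb1 : b ≤ a + 1 := (Nat.pow_dvd_pow_iff_le_right hp.out.one_lt).1 (hxd.trans hC)
        have hb2 : b = a + 1 := by omega
        have hcardC : orderOf (⟨x, hxC⟩ : Subgroup.centralizer ({e} : Set P)) =
            Nat.card (Subgroup.centralizer ({e} : Set P)) := by
          rw [hox]
          refine Nat.dvd_antisymm hxd ?_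
          rw [hb2]
          exact hC
        have hcyc : IsCyclic (Subgroup.centralizer ({e} : Set P)) :=
          isCyclic_of_orderOf_eq_card _ hcardC
        have heC : e ∈ Subgroup.centralizer ({e} : Set P) := by
          rw [Subgroup.mem_centralizer_iff]
          intro h hh
          rw [Set.mem_singleton_iff.1 hh]
        have hzC : z ∈ Subgroup.centralizer ({e} : Set P) := by
          rw [Subgroup.mem_centralizer_iff]
          intro h hh
          rw [Set.mem_singleton_iff.1 hh]
          exact Subgroup.mem_center_iff.1 hzc e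
        have h5 := mem_of_cyclic hcyc hp.out
          (e := (⟨e, heC⟩ : Subgroup.centralizer ({e} : Set P))) (z := ⟨z, hzC⟩)
          (Subtype.ext hep) (by rw [Subgroup.orderOf_mk, hzo])
        obtain ⟨k, hk⟩ := Subgroup.mem_zpowers_iff.1 h5
        have h6 : z ^ k = e := congrArg Subtype.val hk
        exact hec (by rw [← h6]; exact Subgroup.zpow_mem _ hzc k)
      · exact pow_dvd_pow _ hab
    · push Not at hker
      obtain ⟨g, hg1, hg2⟩ := hker
      obtain ⟨σ, hσ, hσ2⟩ := hDesc.2 P V ρ (MonoidHom.ker ρ) hIrr (fun n hn => hn)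
      have hQP : IsPGroup p (P ⧸ MonoidHom.ker ρ) := hP.to_quotient _
      have hcd : Nat.card P = Nat.card (P ⧸ MonoidHom.ker ρ) * Nat.card (MonoidHom.ker ρ) :=
        Subgroup.card_eq_card_quotient_mul_card_subgroup _
      have hpos : 0 < Nat.card (P ⧸ MonoidHom.ker ρ) := Nat.card_pos
      have hk : 1 < Nat.card (MonoidHom.ker ρ) := by
        rw [Finite.one_lt_card_iff_nontrivial]
        exact ⟨⟨⟨g, hg1⟩, 1, fun h => hg2 (congrArg Subtype.val h)⟩⟩
      have hlt : Nat.card (P ⧸ MonoidHom.ker ρ) < n := by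
        rw [← hn, hcd]
        nlinarith
      have hih := ih _ hlt p hp2 (P ⧸ MonoidHom.ker ρ) V σ rfl hQP hσ hdim
        (QuotientGroup.mk x) (by rw [hσ2]; exact hx)
      have ho := hOrd.1 P (MonoidHom.ker ρ) x
      rw [hcd]
      refine dvd_trans (Nat.mul_dvd_mul_right ho _) ?_
      have h3 : orderOf (QuotientGroup.mk x : P ⧸ MonoidHom.ker ρ) *
          Nat.card (MonoidHom.ker ρ) * finrank ℂ V ^ 2 =
          orderOf (QuotientGroup.mk x : P ⧸ MonoidHom.ker ρ) * finrank ℂ V ^ 2 *
          Nat.card (MonoidHom.ker ρ) := by ring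
      rw [h3]
      exact Nat.mul_dvd_mul_right hih _
  intro p hp hp2 P V _ _ _ _ _ ρ hP hIrr hdim x hx
  exact key _ p hp2 P V ρ rfl hP hIrr hdim x hx

end Pool.Agent.Q113.RPB
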